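import Pool.Agent.K9h96.EA.All

/-!
# Edwards–Anderson model: non-uniqueness when the total ferromagnetic bias exceeds `√d log d`

`MP_81d17b_pr`, Q1, for a restricted class of laws of the couplings.  The couplings are `±1` and
independent.  In an arbitrary set `R` of coordinate directions of `ℤ^d` they are completely
disordered (fair signs, as in the question); in the `d - |R|` remaining directions they have a
ferromagnetic bias: `P(J_e = -1) ≤ (1 - ε) / 2`.  If the total bias `ε (d - |R|)` is at least
`C √d log d`, then, for every `β` with `β ε (d - |R|) ≥ C log d`, almost surely there is more
than one Gibbs state.  Remarks: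

* The model of the question itself is, up to a gauge transformation, the case `ε = 1`,
  `|R| = d - 1`: the couplings of one direction may be assumed to be `+1`, and then the others are
  still independent fair signs.  The theorem covers `ε = 1`, `|R| ≤ d - C √d log d`: all
  directions but `C √d log d` may be completely disordered.
* For `R = ∅` a plain Peierls argument with the same count of the contours suffices (for a bias
  `ε ≥ C √(log d / d)`); the point of the theorem is that `R` may contain most of the directions.
* (Heuristics.)  Up to the logarithms the conditions are those of mean field theory: the mean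
  `2 ε (d - |R|)` of the sum of the `2 d` couplings at a site is compared with its standard
  deviation, of order `√d`, and the temperature `1 / β` with the total bias.

*Proof.*  Let `D = d - |R|`.  Consider the minus cluster of the origin in the `D`-dimensional layer
`{x | x_i = 0 for all i ∈ R}`, in a box of `ℤ^d` with plus boundary condition.  Given the filled
cluster `A`, reverse the spins in `A` and *simultaneously the couplings of the edges parallel to
`R` with an end point in `A`* (Ding and Zhuang's argument for the random field Ising model); the law
of these couplings is invariant.  The energy of the boundary of `A` wins against the logarithm of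
the ratio of the partition functions, a process indexed by the sets `A` with subgaussian
increments, `Var ≤ C β² |R| |A ∆ A'|`.  Its supremum is estimated by chaining: regions with `b`
boundary edges number at most `exp (C (log D / D) b)` (a bound of Lebowitz–Mazel type); their
approximations by blocks with side two in `O(log D)` suitable directions and side one in the
others are at distance `C (log D / D) b` and are much less numerous; after that cubic blocks are
used (Fisher, Fröhlich and Spencer).  A zero–one law and compactness give two Gibbs states.

The definitions of the model (`Site`, `lat`, `Coupling`, `Jc`, `gE`, `IsGibbs`) are those of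
`Pool/Agent/H47R2/EA/Defs.lean`.
-/

set_option autoImplicit false

open MeasureTheory Pool.H47EA

namespace Pool.Agent.Results.MP_81d17b_pr.DisorderedDirections

/-- the edge `e` is parallel to one of the directions in `R` -/
def ParallelTo {d : ℕ} (R : Finset (Fin d)) (e : (lat d).edgeSet) : Prop :=
  ∃ x : Site d, ∃ i ∈ R, e.1 = s(x, x + Pi.single i 1)

/-- **Theorem.**  There is an absolute constant `C` such that the following holds for all `d ≥ 2`,
all sets `R` of coordinate directions of `ℤ^d` and all `0 < ε ≤ 1` with
`ε (d - |R|) ≥ C √d log d`.  Let the `±1` couplings be independent, fair on the edges parallel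
to a direction in `R`, and equal to `-1` with probability at most `(1 - ε) / 2` on the other edges.
Then, for every `β` with `β ε (d - |R|) ≥ C log d`, almost surely there are two different Gibbs
states. -/
theorem result : ∃ C : ℝ, 0 < C ∧ ∀ (d : ℕ), 2 ≤ d → ∀ (R : Finset (Fin d)) (ε : ℝ), 0 < ε →
    ε ≤ 1 → C * (√(d : ℝ) * Real.log d) ≤ ε * ((d : ℝ) - R.card) →
    ∀ (ν : (lat d).edgeSet → Measure Bool) [∀ e, IsProbabilityMeasure (ν e)],
    (∀ e, ParallelTo R e → ν e = (PMF.uniformOfFintype Bool).toMeasure) →
    (∀ e, ¬ ParallelTo R e → ν e {false} ≤ ENNReal.ofReal ((1 - ε) / 2)) →
    ∀ β : ℝ, C * Real.log d ≤ β * (ε * ((d : ℝ) - R.card)) →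
    ∀ᵐ J ∂(Measure.infinitePi ν), ∃ π π' : Measure (Site d → Bool), π ≠ π' ∧
      IsGibbs β J π ∧ IsGibbs β J π' :=
  Pool.Agent.K9h96.EA.main4

end Pool.Agent.Results.MP_81d17b_pr.DisorderedDirections
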