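import Pool.Agent.K9h1.EA.Columnar

/-!
# Non-uniqueness of low-temperature Edwards–Anderson Gibbs states with frustration off a plane

The definitions of the model (`Site`, `Coupling`, `Jc`, `gE`, `IsGibbs`, `betaC`) are those of
`Pool/Agent/H47R2/EA/Defs.lean`.

Let `d ≥ 2` be arbitrary, fix two coordinate directions `i₀ ≠ i₁` of `ℤ^d`, and let `J` be *any*
vector of `±1` couplings on the edges of `ℤ^d` for which every unit square having a side parallel
to `e_{i₀}` or to `e_{i₁}` is unfrustrated (the product of its four couplings is `+1`).  There is
no condition on the unit squares spanned by two of the remaining `d - 2` directions: all of them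
may be frustrated, and the couplings of the sublattice `{x : x_{i₀} = x_{i₁} = 0} ≅ ℤ^{d-2}` are
arbitrary; for instance a realisation of independent fair signs.  (Up to a gauge transformation
the couplings of this class are the columnar ones: `+1` along `e_{i₀}` and `e_{i₁}`, and
arbitrary but unchanged by the shifts along `e_{i₀}`, `e_{i₁}` on all other edges.)

We prove that, at every `β ≥ 15`, there is more than one Gibbs state at `(β, J)`, whence
`β_c(J) ≤ 15`; the constant depends neither on `d` nor on `J`.  (For `d - 2 ≥ 2` and independent
fair signs in the transverse sublattice, no comparison with a ferromagnet, no correlation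
inequality and no Peierls argument with domain walls of the full lattice is available.)

*Proof.*  A gauge transformation makes the couplings columnar.  On the torus
`(ℤ/n)² × [-R,R]^{d-2}` the Gibbs weight is a double product of transfer matrices which are
positive semidefinite because the couplings along the two directions are ferromagnetic; a trace
inequality of Hölder type (chessboard estimate), applied to the components at one fixed transverse
site with *all* other components integrated out, bounds the probability that a given set of bonds
of this two-dimensional component consists of disagreements by `q^{|T|/2}` with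
`q = 2 e^{-2β}`, whatever the transverse couplings are.  A planar Peierls argument then gives
`⟨σ_0 σ_z⟩ ≥ 1/2` for `z` just outside a given box; conditioning on the outside of the box (where
the torus is locally the lattice) gives a boundary condition with magnetisation at least `1/2` in
absolute value at the origin, for every finite box; compactness gives two Gibbs states.
-/

set_option autoImplicit false

namespace Pool.Agent.Results.MP_81d17b_pr.FrustrationOffAPlane

open MeasureTheory Pool.H47EA

/-- the unit vector in direction `i` -/
def unit {d : ℕ} (i : Fin d) : Site d := Pi.single i 1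

/-- the product of the four couplings around the unit square with vertices
`x, x + e_i, x + e_i + e_j, x + e_j` -/
noncomputable def square {d : ℕ} (J : Coupling d) (x : Site d) (i j : Fin d) : ℝ :=
  Jc J x (x + unit i) * Jc J (x + unit i) (x + unit i + unit j) *
    Jc J (x + unit i + unit j) (x + unit j) * Jc J (x + unit j) x

/-- all unit squares with a side parallel to `e_{i₀}` or to `e_{i₁}` are unfrustrated -/
def FrustrationOffPlane {d : ℕ} (i₀ i₁ : Fin d) (J : Coupling d) : Prop :=
  ∀ (x : Site d) (i j : Fin d), i ≠ j → (i = i₀ ∨ i = i₁) → square J x i j = 1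

/-- **Theorem.**  For couplings without frustration in the unit squares which have a side parallel
to one of two given directions, and arbitrary otherwise, there is more than one Gibbs state at
every `β ≥ 15`, and `β_c ≤ 15`.  The couplings of the transverse sublattice are arbitrary in this
class. -/
theorem result :
    (∀ (d : ℕ) (i₀ i₁ : Fin d), i₀ ≠ i₁ → ∀ J : Coupling d, FrustrationOffPlane i₀ i₁ J →
      (∀ β : ℝ, 15 ≤ β → ∃ π π' : Measure (Site d → Bool), π ≠ π' ∧ IsGibbs β J π ∧
        IsGibbs β J π') ∧ betaC J ≤ 15) ∧
    (∀ (d : ℕ) (i₀ i₁ : Fin d), i₀ ≠ i₁ → ∀ J₀ : Coupling d, ∃ J : Coupling d,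
      FrustrationOffPlane i₀ i₁ J ∧
      ∀ x y : Site d, x i₀ = 0 → x i₁ = 0 → y i₀ = 0 → y i₁ = 0 → Jc J x y = Jc J₀ x y) := by
  refine ⟨?_, ?_⟩
  · intro d i₀ i₁ hne J hJ
    have h : ∀ β : ℝ, 15 ≤ β → ∃ π π' : Measure (Site d → Bool), π ≠ π' ∧ IsGibbs β J π ∧
        IsGibbs β J π' := fun β hβ => Pool.Agent.K9h1.EA.main J hne hJ hβ
    refine ⟨h, ?_⟩
    unfold betaC
    refine iSup₂_le fun β hβ => ?_
    have h1 : β ≤ 15 := by
      by_contra hc
      push Not at hc
      obtain ⟨π, π', hππ, h2, h3⟩ := h β hc.le
      exact hππ (hβ.2.unique h2 h3)
    calc ENNReal.ofReal β ≤ ENNReal.ofReal 15 := ENNReal.ofReal_le_ofReal h1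
      _ = 15 := by norm_num
  · intro d i₀ i₁ hne J₀
    refine ⟨Pool.Agent.K9h1.EA.columnar J₀ i₀ i₁, ?_, ?_⟩
    · intro x i j _ hi
      exact Pool.Agent.K9h1.EA.plaq_columnar J₀ x hi
    · intro x y hx0 hx1 hy0 hy1
      exact Pool.Agent.K9h1.EA.columnar_eq J₀ hx0 hx1 hy0 hy1

end Pool.Agent.Results.MP_81d17b_pr.FrustrationOffAPlane
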