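import Pool.Agent.K9h1.EB.Main

/-!
# Edwards-Anderson model with symmetric couplings in all but three directions

`MP_81d17b_pr`, Q1, restricted model.  The couplings are independent.  In the directions of a set
`S` of at least three coordinate directions they are strong and ferromagnetic with probability
close to one; in all the other directions they are bounded by one and symmetric, for instance fair
`±1`.  At low temperature there are, almost surely, two different Gibbs states.
-/

set_option autoImplicit false

open MeasureTheory Pool.Agent.K9h1.EB

namespace Pool.Agent.Results.MP_81d17b_pr.StrongBondsInThreeDirections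

/-- **Theorem.**  Let `S` be a set of at least three coordinate directions of `ℤ^d` and `M ≥ 0`.
There are `K₀, p₀ > 0` such that for all `K ≥ K₀` and `β > 0` with `β K ≥ K₀` the following holds.
Let the couplings be independent, the coupling of the edge `e` having the law `ρ e`.  Suppose that
for `e` in a direction of `S` the coupling is `< K` with probability at most `p₀` and almost surely
at least `-M K`, and that for `e` in another direction it is symmetric and almost surely bounded by
`1` in absolute value.  Then almost surely there are two different Gibbs states. -/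
theorem result {d : ℕ} {S : Finset (Fin d)} (hS : 3 ≤ S.card) {M : ℝ} (hM : 0 ≤ M) :
    ∃ K0 p0 : ℝ, 0 < K0 ∧ 0 < p0 ∧ ∀ K : ℝ, K0 ≤ K → ∀ β : ℝ, 0 < β → K0 ≤ β * K →
      ∀ (ρ : Edge d → Measure ℝ) [∀ e, IsProbabilityMeasure (ρ e)],
      (∀ e : Edge d, e.2 ∈ S → ρ e {x | x < K} ≤ ENNReal.ofReal p0 ∧
        ρ e {x | x < -(M * K)} = 0) →
      (∀ e : Edge d, e.2 ∉ S → (ρ e).map (fun x => -x) = ρ e ∧ ρ e {x | 1 < |x|} = 0) →
      ∀ᵐ J ∂(Measure.infinitePi ρ), ∃ π π' : Measure (Site d → Bool), π ≠ π' ∧
        IsGibbs β J π ∧ IsGibbs β J π' :=
  main hS hM

end Pool.Agent.Results.MP_81d17b_pr.StrongBondsInThreeDirections
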